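import Pool.Agent.helper44.EX.Spec

set_option autoImplicit false

open Complex Metric Set Filter Topology MeasureTheory Pool.Agent.helper98.ILF

noncomputable section

namespace EX

theorem ROT : ROT_stmt := by
  intro n c ω μ hn hω h
  have hω0 : ω ≠ 0 := by
    rintro rfl
    rw [zero_pow (by omega)] at hω
    exact zero_ne_one hω
  have hnorm : ‖ω‖ = 1 := by
    have h1 : ‖ω‖ ^ n = 1 := by rw [← norm_pow, hω, norm_one]
    exact (pow_eq_one_iff_of_nonneg (norm_nonneg _) (by omega)).1 h1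
  have hq : MeasureTheory.Measure.QuasiMeasurePreserving (fun z : ℂ => ω * z) volume volume := by
    have hmem : ω ∈ Submonoid.unitSphere ℂ := by
      rw [Submonoid.unitSphere, Submonoid.mem_mk]
      simpa using hnorm
    let u : Circle := ⟨ω, hmem⟩
    exact (rotation u).measurePreserving.quasiMeasurePreserving
  have h2 := hq.ae h
  have h3 : ∀ᵐ z : ℂ, z ≠ 0 := Measure.ae_ne volume 0
  filter_upwards [h, h2, h3] with z h1 h2 h3
  have hf : ff n c (ω * z) = ff n c z := by unfold ff; rw [mul_pow, hω, one_mul]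
  have hd : ∀ w, deriv (ff n c) w = n * w ^ (n - 1) := by
    intro w
    have h4 : HasDerivAt (ff n c) ((n : ℂ) * w ^ (n - 1)) w := by
      have := (hasDerivAt_pow n w).add_const c
      exact this
    exact h4.deriv
  have hω1 : ω ^ (n - 1) = ω⁻¹ := by
    have h4 : ω ^ (n - 1) * ω = 1 := by
      rw [← pow_succ, Nat.sub_add_cancel hn, hω]
    exact eq_inv_of_mul_eq_one_left h4
  have hconj : (starRingEnd ℂ) ω⁻¹ = ω := by
    rw [map_inv₀]
    have h5 : (starRingEnd ℂ) ω * ω = 1 := by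
      rw [mul_comm, Complex.mul_conj, Complex.normSq_eq_norm_sq, hnorm]; norm_num
    exact inv_eq_of_mul_eq_one_right h5
  have hn0 : (n : ℂ) ≠ 0 := by exact_mod_cast (by omega : n ≠ 0)
  have hD : (n : ℂ) * z ^ (n - 1) ≠ 0 := mul_ne_zero hn0 (pow_ne_zero _ h3)
  rw [hf, hd] at h2
  rw [hd] at h1
  have hD' : (n : ℂ) * (ω * z) ^ (n - 1) = ω⁻¹ * ((n : ℂ) * z ^ (n - 1)) := by
    rw [mul_pow, hω1]; ring
  rw [hD', map_mul, hconj] at h2
  rw [← h2, ← h1]
  field_simp

end EX
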